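import Pool.Agent.T2h16.TX.Mat

/-!
# The densities of the good primes for every twist of `X_0(49)`
-/

set_option autoImplicit false
set_option linter.style.haveILetI false

open scoped Classical

namespace T2h16.TX

open Filter Topology Finset Q283.TW
open Pool.Agent.Results.MP_4a9ea6_nt.TwoPartTwistsX49 (Adm inert split nonsq nonfourth mat TwoPart
  two_iff)

section
variable {n : Type} [Fintype n] [DecidableEq n] (A : Matrix n n (ZMod 2))

theorem card_compl {α : Type} [Finite α] (P : α → Prop) :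
    Nat.card {x : α // P x} + Nat.card {x : α // ¬ P x} = Nat.card α := by
  rw [← Nat.card_sum]
  exact Nat.card_congr (Equiv.sumCompl P)

theorem exists_sing [Nonempty n] : ∃ v : n → ZMod 2, ¬ (A + Matrix.diagonal v).det ≠ 0 := by
  by_contra hc
  push Not at hc
  have h := sum_det A
  have h1 : ∀ v : n → ZMod 2, (A + Matrix.diagonal v).det = 1 := fun v =>
    (by decide : ∀ a : ZMod 2, a ≠ 0 → a = 1) _ (hc v)
  simp_rw [h1] at h
  rw [Finset.sum_const, Finset.card_univ, Fintype.card_fun, ZMod.card, nsmul_eq_mul, mul_one] at h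
  have h2 : ((2 ^ Fintype.card n : ℕ) : ZMod 2) = 0 := by
    rw [ZMod.natCast_eq_zero_iff]
    exact dvd_pow_self 2 Fintype.card_ne_zero
  rw [h2] at h
  exact zero_ne_one h

theorem exists_bord_sing : ∃ x : (n → ZMod 2) × ZMod 2, ¬ (bord A x.1 x.2).det ≠ 0 := by
  obtain ⟨v, hv⟩ := exists_diag A
  have hu : IsUnit (A + Matrix.diagonal v).det := Ne.isUnit hv
  letI : Invertible (A + Matrix.diagonal v) := Matrix.invertibleOfIsUnitDet _ hu
  set c : ZMod 2 := ((Matrix.of fun (_ : Unit) (j : n) => v j) * ⅟(A + Matrix.diagonal v) *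
    (Matrix.of fun (i : n) (_ : Unit) => v i)) () () with hc
  refine ⟨(v, c), ?_⟩
  rw [not_not]
  unfold bord
  rw [Matrix.det_fromBlocks₁₁]
  have : (Matrix.of (fun (_ _ : Unit) => c) - (Matrix.of fun (_ : Unit) (j : n) => v j) *
      ⅟(A + Matrix.diagonal v) * (Matrix.of fun (i : n) (_ : Unit) => v i)).det = 0 := by
    rw [Matrix.det_unique]
    simp only [Matrix.sub_apply, Matrix.of_apply]
    have h1 : (default : Unit) = () := rfl
    rw [h1, ← hc, sub_self]
  rw [this, mul_zero]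

theorem diag_bounds : (1 / 2 : ℝ) ^ Fintype.card n ≤
    (Nat.card {v : n → ZMod 2 // (A + Matrix.diagonal v).det ≠ 0} : ℝ) / 2 ^ Fintype.card n ∧
    (Fintype.card n ≠ 0 → (Nat.card {v : n → ZMod 2 // (A + Matrix.diagonal v).det ≠ 0} : ℝ) /
      2 ^ Fintype.card n ≤ 1 - (1 / 2 : ℝ) ^ Fintype.card n) := by
  have h2 : Nat.card (n → ZMod 2) = 2 ^ Fintype.card n := by
    rw [Nat.card_eq_fintype_card, Fintype.card_fun, ZMod.card]
  have h3 := card_compl (fun v : n → ZMod 2 => (A + Matrix.diagonal v).det ≠ 0)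
  have hpos : (0 : ℝ) < 2 ^ Fintype.card n := by positivity
  constructor
  · obtain ⟨v, hv⟩ := exists_diag A
    have hne : Nonempty {v : n → ZMod 2 // (A + Matrix.diagonal v).det ≠ 0} := ⟨⟨v, hv⟩⟩
    have h1 : 1 ≤ Nat.card {v : n → ZMod 2 // (A + Matrix.diagonal v).det ≠ 0} := Nat.card_pos
    rw [div_pow, one_pow]
    exact div_le_div_of_nonneg_right (by exact_mod_cast h1) hpos.le
  · intro h0
    have hn : Nonempty n := Fintype.card_pos_iff.1 (Nat.pos_of_ne_zero h0)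
    obtain ⟨v, hv⟩ := exists_sing A
    have hne : Nonempty {v : n → ZMod 2 // ¬ (A + Matrix.diagonal v).det ≠ 0} := ⟨⟨v, hv⟩⟩
    have h1 : 1 ≤ Nat.card {v : n → ZMod 2 // ¬ (A + Matrix.diagonal v).det ≠ 0} := Nat.card_pos
    rw [h2] at h3
    have h4 : (Nat.card {v : n → ZMod 2 // (A + Matrix.diagonal v).det ≠ 0} : ℝ) + 1 ≤
        2 ^ Fintype.card n := by
      have : Nat.card {v : n → ZMod 2 // (A + Matrix.diagonal v).det ≠ 0} + 1 ≤
        2 ^ Fintype.card n := by omega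
      exact_mod_cast this
    rw [div_le_iff₀ hpos, div_pow, one_pow, sub_mul, one_mul, div_mul_cancel₀ _ hpos.ne']
    linarith

theorem bord_bounds : (1 / 2 : ℝ) ^ (Fintype.card n + 1) ≤
    (Nat.card {x : (n → ZMod 2) × ZMod 2 // (bord A x.1 x.2).det ≠ 0} : ℝ) /
      2 ^ (Fintype.card n + 1) ∧
    (Nat.card {x : (n → ZMod 2) × ZMod 2 // (bord A x.1 x.2).det ≠ 0} : ℝ) /
      2 ^ (Fintype.card n + 1) ≤ 1 - (1 / 2 : ℝ) ^ (Fintype.card n + 1) := by
  have h3 := card_compl (fun x : (n → ZMod 2) × ZMod 2 => (bord A x.1 x.2).det ≠ 0)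
  have hpos : (0 : ℝ) < 2 ^ (Fintype.card n + 1) := by positivity
  constructor
  · obtain ⟨v, d, hv⟩ := exists_bord A
    have hne : Nonempty {x : (n → ZMod 2) × ZMod 2 // (bord A x.1 x.2).det ≠ 0} := ⟨⟨(v, d), hv⟩⟩
    have h1 : 1 ≤ Nat.card {x : (n → ZMod 2) × ZMod 2 // (bord A x.1 x.2).det ≠ 0} :=
      Nat.card_pos
    rw [div_pow, one_pow]
    exact div_le_div_of_nonneg_right (by exact_mod_cast h1) hpos.le
  · obtain ⟨x, hx⟩ := exists_bord_sing A
    have hne : Nonempty {x : (n → ZMod 2) × ZMod 2 // ¬ (bord A x.1 x.2).det ≠ 0} := ⟨⟨x, hx⟩⟩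
    have h1 : 1 ≤ Nat.card {x : (n → ZMod 2) × ZMod 2 // ¬ (bord A x.1 x.2).det ≠ 0} :=
      Nat.card_pos
    rw [card_pairs] at h3
    have h4 : (Nat.card {x : (n → ZMod 2) × ZMod 2 // (bord A x.1 x.2).det ≠ 0} : ℝ) + 1 ≤
        2 ^ (Fintype.card n + 1) := by
      have : Nat.card {x : (n → ZMod 2) × ZMod 2 // (bord A x.1 x.2).det ≠ 0} + 1 ≤
        2 ^ (Fintype.card n + 1) := by omega
      exact_mod_cast this
    rw [div_le_iff₀ hpos, div_pow, one_pow, sub_mul, one_mul, div_mul_cancel₀ _ hpos.ne']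
    linarith

end

/-- the criterion for one more prime -/
theorem crit {D p : ℕ} (hD : Adm D) (hp : p.Prime) (h4 : p % 4 = 1) (hpD : ¬ p ∣ D) :
    (¬ IsSquare (-7 : ZMod p) → (TwoPart (D * p) ↔
      (mat D + Matrix.diagonal fun q : split D => nonsq p q).det ≠ 0)) ∧
    (IsSquare (-7 : ZMod p) → (TwoPart (D * p) ↔
      (bord (mat D) (fun q : split D => nonsq p q)
        (∑ l ∈ D.primeFactors, nonsq p l + nonfourth p)).det ≠ 0)) := by
  have hA := adm_mul hD hp h4 hpD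
  refine ⟨fun h7 => ?_, fun h7 => ?_⟩
  · rw [two_iff hA, det_inert hD hp h4 hpD h7]
    rfl
  · rw [two_iff hA, det_split hD hp h4 hpD h7]
    rfl

theorem fac_ok {D : ℕ} (hD : Adm D) : ∀ r ∈ D.primeFactors, r.Prime ∧ r ≠ 2 ∧ r ≠ 7 := by
  intro r hr
  have h4 := hD.2 r hr
  exact ⟨Nat.prime_of_mem_primeFactors hr, by omega, by omega⟩

theorem dvd_bad {D p : ℕ} (hD : Adm D) (hp : p.Prime) (h : ¬ p ∣ Bad D.primeFactors) : ¬ p ∣ D := by
  intro hd
  exact (not_bad h).2.2 p (Nat.mem_primeFactors.2 ⟨hp, hd, hD.1.ne_zero⟩) (dvd_refl p)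

/-- **The inert primes.** -/
theorem lim_inert {D : ℕ} (hD : Adm D) {r : ℕ} (hr : r = 1 ∨ r = 5) :
    Tendsto (fun X : ℕ =>
      (cnt (fun p => p % 8 = r ∧ ¬ IsSquare (-7 : ZMod p) ∧ TwoPart (D * p)) X : ℝ) /
        (cnt (fun p => p % 8 = r ∧ ¬ IsSquare (-7 : ZMod p)) X : ℝ)) atTop
      (𝓝 ((Nat.card {v : split D → ZMod 2 // (mat D + Matrix.diagonal v).det ≠ 0} : ℝ) /
        2 ^ (split D).card)) := by
  have e0 : Cl r False = fun p => p % 8 = r ∧ ¬ IsSquare (-7 : ZMod p) := by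
    funext p
    unfold Cl
    simp only [iff_false]
  have h := ratio₁ D.primeFactors (fac_ok hD) (split D) (Finset.filter_subset _ _) hr False
    (fun v => (mat D + Matrix.diagonal v).det ≠ 0)
    (fun p => p % 8 = r ∧ ¬ IsSquare (-7 : ZMod p) ∧ TwoPart (D * p)) (fun p hp hb => by
      rw [e0, ← and_assoc]
      refine and_congr_right fun hc => ?_
      exact (crit hD hp (by rcases hr with rfl | rfl <;> omega) (dvd_bad hD hp hb)).1 hc.2)
  rw [e0] at h
  exact h

/-- **The split primes.** -/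
theorem lim_split {D : ℕ} (hD : Adm D) {r : ℕ} (hr : r = 1 ∨ r = 5) :
    Tendsto (fun X : ℕ =>
      (cnt (fun p => p % 8 = r ∧ IsSquare (-7 : ZMod p) ∧ TwoPart (D * p)) X : ℝ) /
        (cnt (fun p => p % 8 = r ∧ IsSquare (-7 : ZMod p)) X : ℝ)) atTop
      (𝓝 ((Nat.card {x : (split D → ZMod 2) × ZMod 2 // (bord (mat D) x.1 x.2).det ≠ 0} : ℝ) /
        2 ^ ((split D).card + 1))) := by
  have e0 : Cl r True = fun p => p % 8 = r ∧ IsSquare (-7 : ZMod p) := by
    funext p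
    unfold Cl
    simp only [iff_true]
  have h := ratio₂ D.primeFactors (fac_ok hD) (split D) (Finset.filter_subset _ _) hr
    (fun x => (bord (mat D) x.1 x.2).det ≠ 0)
    (fun p => p % 8 = r ∧ IsSquare (-7 : ZMod p) ∧ TwoPart (D * p)) (fun p hp hb => by
      rw [e0, ← and_assoc]
      refine and_congr_right fun hc => ?_
      exact (crit hD hp (by rcases hr with rfl | rfl <;> omega) (dvd_bad hD hp hb)).2 hc.2)
  rw [e0] at h
  exact h

end T2h16.TX
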